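import Pool.Agent.H592.TR.Stm

/-! # TR project (helper592): the Chinese remainder theorem for `RR` (by helper703) -/

set_option autoImplicit false

open Finset

namespace Pool.Agent.H703.TR.T2

open Pool.Agent.H592.TR (RR Adm)

/-- the number of the pairs -/
def cn (u v : ℤ) (N m n : ℕ) : ℕ :=
  ((range N ×ˢ range N).filter
    (fun p : ℕ × ℕ => (m : ℤ) ∣ (p.1 : ℤ) * p.2 + u ∧ (n : ℤ) ∣ (p.1 : ℤ) * p.2 + v)).card

theorem mem_iff (u v : ℤ) (N m n b c : ℕ) : (b, c) ∈ (range N ×ˢ range N).filter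
    (fun p : ℕ × ℕ => (m : ℤ) ∣ (p.1 : ℤ) * p.2 + u ∧ (n : ℤ) ∣ (p.1 : ℤ) * p.2 + v) ↔
    (b < N ∧ c < N) ∧ (m : ℤ) ∣ (b : ℤ) * c + u ∧ (n : ℤ) ∣ (b : ℤ) * c + v := by
  rw [mem_filter, mem_product, mem_range, mem_range]

/-- periodicity -/
theorem per (N m b c b' c' : ℕ) (w : ℤ) (hm : m ∣ N) (hb : b ≡ b' [MOD N]) (hc : c ≡ c' [MOD N]) :
    (m : ℤ) ∣ (b : ℤ) * c + w ↔ (m : ℤ) ∣ (b' : ℤ) * c' + w := by
  have h1 : b * c ≡ b' * c' [MOD m] := (hb.mul hc).of_dvd hm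
  have h2 : ((b * c : ℕ) : ℤ) ≡ ((b' * c' : ℕ) : ℤ) [ZMOD (m : ℤ)] :=
    (Int.natCast_modEq_iff).mpr h1
  have h3 : (m : ℤ) ∣ ((b' * c' : ℕ) : ℤ) - ((b * c : ℕ) : ℤ) := h2.dvd
  push_cast at h3
  constructor
  · intro h
    have e : (b' : ℤ) * c' + w = ((b : ℤ) * c + w) + ((b' : ℤ) * c' - (b : ℤ) * c) := by ring
    rw [e]
    exact dvd_add h h3
  · intro h
    have e : (b : ℤ) * c + w = ((b' : ℤ) * c' + w) - ((b' : ℤ) * c' - (b : ℤ) * c) := by ring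
    rw [e]
    exact dvd_sub h h3

theorem dvd_mul_iff (m n : ℕ) (co : Nat.Coprime m n) (x : ℤ) :
    ((m * n : ℕ) : ℤ) ∣ x ↔ (m : ℤ) ∣ x ∧ (n : ℤ) ∣ x := by
  push_cast
  constructor
  · intro h
    exact ⟨(dvd_mul_right _ _).trans h, (dvd_mul_left _ _).trans h⟩
  · rintro ⟨h1, h2⟩
    exact (Nat.isCoprime_iff_coprime.mpr co).mul_dvd h1 h2

/-- Chinese remainder theorem -/
theorem crt (u v : ℤ) (N₁ N₂ m₁ m₂ n₁ n₂ : ℕ) (co : Nat.Coprime N₁ N₂) (h1 : N₁ ≠ 0)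
    (h2 : N₂ ≠ 0) (hm₁ : m₁ ∣ N₁) (hn₁ : n₁ ∣ N₁) (hm₂ : m₂ ∣ N₂) (hn₂ : n₂ ∣ N₂) :
    cn u v (N₁ * N₂) (m₁ * m₂) (n₁ * n₂) = cn u v N₁ m₁ n₁ * cn u v N₂ m₂ n₂ := by
  have com : Nat.Coprime m₁ m₂ := Nat.Coprime.of_dvd hm₁ hm₂ co
  have con : Nat.Coprime n₁ n₂ := Nat.Coprime.of_dvd hn₁ hn₂ co
  unfold cn
  rw [← card_product]
  refine card_nbij' (fun p => ((p.1 % N₁, p.2 % N₁), (p.1 % N₂, p.2 % N₂)))
    (fun x => ((Nat.chineseRemainder co x.1.1 x.2.1 : ℕ),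
      (Nat.chineseRemainder co x.1.2 x.2.2 : ℕ))) ?_ ?_ ?_ ?_
  · rintro ⟨b, c⟩ hp
    rw [mem_coe, mem_iff] at hp
    obtain ⟨_, h3, h4⟩ := hp
    rw [dvd_mul_iff _ _ com] at h3
    rw [dvd_mul_iff _ _ con] at h4
    show ((b % N₁, c % N₁), (b % N₂, c % N₂)) ∈ _
    rw [mem_coe, mem_product, mem_iff, mem_iff]
    refine ⟨⟨⟨Nat.mod_lt _ (Nat.pos_of_ne_zero h1), Nat.mod_lt _ (Nat.pos_of_ne_zero h1)⟩, ?_, ?_⟩,
      ⟨⟨Nat.mod_lt _ (Nat.pos_of_ne_zero h2), Nat.mod_lt _ (Nat.pos_of_ne_zero h2)⟩, ?_, ?_⟩⟩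
    · exact (per N₁ m₁ _ _ _ _ u hm₁ (Nat.mod_modEq b N₁) (Nat.mod_modEq c N₁)).mpr h3.1
    · exact (per N₁ n₁ _ _ _ _ v hn₁ (Nat.mod_modEq b N₁) (Nat.mod_modEq c N₁)).mpr h4.1
    · exact (per N₂ m₂ _ _ _ _ u hm₂ (Nat.mod_modEq b N₂) (Nat.mod_modEq c N₂)).mpr h3.2
    · exact (per N₂ n₂ _ _ _ _ v hn₂ (Nat.mod_modEq b N₂) (Nat.mod_modEq c N₂)).mpr h4.2
  · rintro ⟨⟨b1, c1⟩, ⟨b2, c2⟩⟩ hp
    rw [mem_coe, mem_product, mem_iff, mem_iff] at hp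
    obtain ⟨⟨_, h3, h4⟩, ⟨_, h5, h6⟩⟩ := hp
    show ((Nat.chineseRemainder co b1 b2 : ℕ), (Nat.chineseRemainder co c1 c2 : ℕ)) ∈ _
    have hb := (Nat.chineseRemainder co b1 b2).2
    have hc := (Nat.chineseRemainder co c1 c2).2
    rw [mem_coe, mem_iff]
    refine ⟨⟨Nat.chineseRemainder_lt_mul co _ _ h1 h2, Nat.chineseRemainder_lt_mul co _ _ h1 h2⟩,
      ?_, ?_⟩
    · rw [dvd_mul_iff _ _ com]
      exact ⟨(per N₁ m₁ _ _ _ _ u hm₁ hb.1 hc.1).mpr h3,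
        (per N₂ m₂ _ _ _ _ u hm₂ hb.2 hc.2).mpr h5⟩
    · rw [dvd_mul_iff _ _ con]
      exact ⟨(per N₁ n₁ _ _ _ _ v hn₁ hb.1 hc.1).mpr h4,
        (per N₂ n₂ _ _ _ _ v hn₂ hb.2 hc.2).mpr h6⟩
  · rintro ⟨b, c⟩ hp
    rw [mem_coe, mem_iff] at hp
    have key : ∀ x : ℕ, x < N₁ * N₂ → (Nat.chineseRemainder co (x % N₁) (x % N₂) : ℕ) = x := by
      intro x hx
      have h3 := (Nat.chineseRemainder co (x % N₁) (x % N₂)).2
      have h4 : (Nat.chineseRemainder co (x % N₁) (x % N₂) : ℕ) ≡ x [MOD N₁ * N₂] :=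
        (Nat.modEq_and_modEq_iff_modEq_mul co).mp ⟨h3.1.trans (Nat.mod_modEq x N₁),
          h3.2.trans (Nat.mod_modEq x N₂)⟩
      exact Nat.ModEq.eq_of_lt_of_lt h4 (Nat.chineseRemainder_lt_mul co _ _ h1 h2) hx
    show ((Nat.chineseRemainder co (b % N₁) (b % N₂) : ℕ),
      (Nat.chineseRemainder co (c % N₁) (c % N₂) : ℕ)) = (b, c)
    rw [key b hp.1.1, key c hp.1.2]
  · rintro ⟨⟨b1, c1⟩, ⟨b2, c2⟩⟩ hp
    rw [mem_coe, mem_product, mem_iff, mem_iff] at hp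
    obtain ⟨⟨h3, _⟩, ⟨h4, _⟩⟩ := hp
    have hb := (Nat.chineseRemainder co b1 b2).2
    have hc := (Nat.chineseRemainder co c1 c2).2
    have e1 : (Nat.chineseRemainder co b1 b2 : ℕ) % N₁ = b1 := by
      have := hb.1
      rw [Nat.ModEq, Nat.mod_eq_of_lt h3.1] at this
      exact this
    have e2 : (Nat.chineseRemainder co b1 b2 : ℕ) % N₂ = b2 := by
      have := hb.2
      rw [Nat.ModEq, Nat.mod_eq_of_lt h4.1] at this
      exact this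
    have e3 : (Nat.chineseRemainder co c1 c2 : ℕ) % N₁ = c1 := by
      have := hc.1
      rw [Nat.ModEq, Nat.mod_eq_of_lt h3.2] at this
      exact this
    have e4 : (Nat.chineseRemainder co c1 c2 : ℕ) % N₂ = c2 := by
      have := hc.2
      rw [Nat.ModEq, Nat.mod_eq_of_lt h4.2] at this
      exact this
    show (((Nat.chineseRemainder co b1 b2 : ℕ) % N₁, (Nat.chineseRemainder co c1 c2 : ℕ) % N₁),
      ((Nat.chineseRemainder co b1 b2 : ℕ) % N₂, (Nat.chineseRemainder co c1 c2 : ℕ) % N₂)) =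
      ((b1, c1), (b2, c2))
    rw [e1, e2, e3, e4]

/-- the number of the solutions of `b c ≡ -w` modulo `m`, `w` a unit modulo `m` -/
theorem count (m : ℕ) (hm : 0 < m) (w : ℤ) (hw : IsCoprime (m : ℤ) w) :
    ((range m ×ˢ range m).filter (fun p : ℕ × ℕ => (m : ℤ) ∣ (p.1 : ℤ) * p.2 + w)).card =
      Nat.totient m := by
  unfold Nat.totient
  refine card_bij (fun p _ => p.1) ?_ ?_ ?_
  · rintro ⟨b, c⟩ hp
    rw [mem_filter, mem_product, mem_range, mem_range] at hp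
    obtain ⟨⟨h1, _⟩, h2⟩ := hp
    rw [mem_filter, mem_range]
    refine ⟨h1, ?_⟩
    rw [← Nat.isCoprime_iff_coprime]
    obtain ⟨e, he⟩ := h2
    obtain ⟨s, t, hst⟩ := hw
    refine ⟨s + t * e, -t * c, ?_⟩
    show (s + t * e) * (m : ℤ) + -t * c * (b : ℤ) = 1
    have he' : (b : ℤ) * c + w = m * e := he
    linear_combination hst - t * he'
  · rintro ⟨b, c⟩ hp ⟨b', c'⟩ hp' hbb
    have hbb' : b = b' := hbb
    subst hbb'
    rw [mem_filter, mem_product, mem_range, mem_range] at hp hp'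
    obtain ⟨⟨_, h1⟩, h2⟩ := hp
    obtain ⟨⟨_, h3⟩, h4⟩ := hp'
    have h2' : (m : ℤ) ∣ (b : ℤ) * c + w := h2
    have h4' : (m : ℤ) ∣ (b : ℤ) * c' + w := h4
    have h1' : c < m := h1
    have h3' : c' < m := h3
    have hco : IsCoprime (m : ℤ) (b : ℤ) := by
      obtain ⟨e, he⟩ := h2'
      obtain ⟨s, t, hst⟩ := hw
      refine ⟨s + t * e, -t * c, ?_⟩
      linear_combination hst - t * he
    have h5 : (m : ℤ) ∣ (b : ℤ) * (c - c') := by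
      have e : (b : ℤ) * (c - c') = ((b : ℤ) * c + w) - ((b : ℤ) * c' + w) := by ring
      rw [e]
      exact dvd_sub h2' h4'
    have h6 : (m : ℤ) ∣ (c : ℤ) - c' := hco.dvd_of_dvd_mul_left h5
    have h7 : c' ≡ c [MOD m] := (Int.natCast_modEq_iff).mp (Int.modEq_iff_dvd.mpr h6)
    have h8 : c' = c := Nat.ModEq.eq_of_lt_of_lt h7 h3' h1'
    rw [h8]
  · intro b hb
    rw [mem_filter, mem_range] at hb
    obtain ⟨h1, h2⟩ := hb
    have h3 : IsCoprime (m : ℤ) (b : ℤ) := Nat.isCoprime_iff_coprime.mpr h2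
    obtain ⟨s, t, hst⟩ := h3
    have hm' : (0 : ℤ) < m := by exact_mod_cast hm
    have h4 : 0 ≤ (-w * t) % (m : ℤ) := Int.emod_nonneg _ hm'.ne'
    have h5 : (-w * t) % (m : ℤ) < m := Int.emod_lt_of_pos _ hm'
    refine ⟨(b, ((-w * t) % (m : ℤ)).toNat), ?_, rfl⟩
    rw [mem_filter, mem_product, mem_range, mem_range]
    refine ⟨⟨h1, ?_⟩, ?_⟩
    · show ((-w * t) % (m : ℤ)).toNat < m
      omega
    · show (m : ℤ) ∣ (b : ℤ) * ((((-w * t) % (m : ℤ)).toNat : ℕ) : ℤ) + w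
      rw [Int.toNat_of_nonneg h4]
      have h6 : (-w * t) % (m : ℤ) = -w * t - m * ((-w * t) / m) := Int.emod_def _ _
      rw [h6]
      refine ⟨w * s - b * ((-w * t) / m), ?_⟩
      linear_combination (-w) * hst

theorem coprime_two (m : ℕ) (hm : Odd m) (w : ℤ) (hw : w ∣ 2) : IsCoprime (m : ℤ) w := by
  obtain ⟨k, hk⟩ := hm
  have h2 : IsCoprime (m : ℤ) 2 := by
    refine ⟨1, -(k : ℤ), ?_⟩
    rw [hk]
    push_cast
    ring
  exact h2.of_isCoprime_of_dvd_right hw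

theorem adm_dvd (u v : ℤ) (h : Adm u v) : u ∣ 2 ∧ v ∣ 2 ∧ (u - v) ∣ 2 := by
  rcases h with ⟨rfl, rfl⟩ | ⟨rfl, rfl⟩ | ⟨rfl, rfl⟩
  · exact ⟨⟨2, by norm_num⟩, ⟨1, by norm_num⟩, ⟨-2, by norm_num⟩⟩
  · exact ⟨⟨-2, by norm_num⟩, ⟨2, by norm_num⟩, ⟨-1, by norm_num⟩⟩
  · exact ⟨⟨-1, by norm_num⟩, ⟨-2, by norm_num⟩, ⟨-2, by norm_num⟩⟩

theorem cn_odd (u v : ℤ) (h : Adm u v) (m n : ℕ) (hm : Odd m) (hn : Odd n) :
    cn u v (m * n) m n = if Nat.Coprime m n then Nat.totient m * Nat.totient n else 0 := by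
  obtain ⟨hu, hv, huv⟩ := adm_dvd u v h
  have hm0 : 0 < m := hm.pos
  have hn0 : 0 < n := hn.pos
  split_ifs with hco
  · have h1 := crt u v m n m 1 1 n hco hm0.ne' hn0.ne' dvd_rfl (one_dvd _) (one_dvd _) dvd_rfl
    rw [mul_one, one_mul] at h1
    rw [h1]
    have e1 : cn u v m m 1 = Nat.totient m := by
      rw [← count m hm0 u (coprime_two m hm u hu)]
      unfold cn
      refine congrArg card (filter_congr fun p _ => ?_)
      rw [Nat.cast_one]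
      exact ⟨fun h => h.1, fun h => ⟨h, one_dvd _⟩⟩
    have e2 : cn u v n 1 n = Nat.totient n := by
      rw [← count n hn0 v (coprime_two n hn v hv)]
      unfold cn
      refine congrArg card (filter_congr fun p _ => ?_)
      rw [Nat.cast_one]
      exact ⟨fun h => h.2, fun h => ⟨one_dvd _, h⟩⟩
    rw [e1, e2]
  · unfold cn
    rw [card_eq_zero, filter_eq_empty_iff]
    rintro ⟨b, c⟩ _ ⟨h1, h2⟩
    have h1' : (m : ℤ) ∣ (b : ℤ) * c + u := h1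
    have h2' : (n : ℤ) ∣ (b : ℤ) * c + v := h2
    apply hco
    have hg1 : ((Nat.gcd m n : ℕ) : ℤ) ∣ u - v := by
      have e : u - v = ((b : ℤ) * c + u) - ((b : ℤ) * c + v) := by ring
      rw [e]
      exact dvd_sub ((Int.natCast_dvd_natCast.mpr (Nat.gcd_dvd_left m n)).trans h1')
        ((Int.natCast_dvd_natCast.mpr (Nat.gcd_dvd_right m n)).trans h2')
    have hg2 : ((Nat.gcd m n : ℕ) : ℤ) ∣ ((2 : ℕ) : ℤ) := hg1.trans huv
    have hg3 : Nat.gcd m n ∣ 2 := Int.natCast_dvd_natCast.mp hg2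
    have hg4 : Odd (Nat.gcd m n) := Odd.of_dvd_nat hm (Nat.gcd_dvd_left m n)
    rcases (Nat.dvd_prime Nat.prime_two).mp hg3 with h3 | h3
    · exact h3
    · rw [h3] at hg4
      exact absurd hg4 (by decide)

/-- Task T2. -/
theorem t2 : Pool.Agent.H592.TR.T2 := by
  intro u v huv i j m n hm hn
  have hm0 : 0 < m := hm.pos
  have hn0 : 0 < n := hn.pos
  have hco : Nat.Coprime (2 ^ i * 2 ^ j) (m * n) := by
    rw [← pow_add]
    refine Nat.Coprime.pow_left _ ?_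
    rw [Nat.coprime_two_left]
    exact hm.mul hn
  have h1 : cn u v ((2 ^ i * m) * (2 ^ j * n)) (2 ^ i * m) (2 ^ j * n) =
      cn u v (2 ^ i * 2 ^ j) (2 ^ i) (2 ^ j) *
        (if Nat.Coprime m n then Nat.totient m * Nat.totient n else 0) := by
    have e : (2 ^ i * m) * (2 ^ j * n) = (2 ^ i * 2 ^ j) * (m * n) := by ring
    rw [e, crt u v (2 ^ i * 2 ^ j) (m * n) (2 ^ i) m (2 ^ j) n hco (by positivity) (by positivity)
      (dvd_mul_right _ _) (dvd_mul_left _ _) (dvd_mul_right _ _) (dvd_mul_left _ _),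
      cn_odd u v huv m n hm hn]
  have h2 : RR u v (2 ^ i * m) (2 ^ j * n) =
      (cn u v ((2 ^ i * m) * (2 ^ j * n)) (2 ^ i * m) (2 ^ j * n) : ℝ) /
        (((2 ^ i * m : ℕ) : ℝ) * ((2 ^ j * n : ℕ) : ℝ)) ^ 2 := rfl
  have h3 : RR u v (2 ^ i) (2 ^ j) = (cn u v (2 ^ i * 2 ^ j) (2 ^ i) (2 ^ j) : ℝ) /
      (((2 ^ i : ℕ) : ℝ) * ((2 ^ j : ℕ) : ℝ)) ^ 2 := rfl
  rw [h2, h1, h3]
  have hm' : (m : ℝ) ≠ 0 := by exact_mod_cast hm0.ne'
  have hn' : (n : ℝ) ≠ 0 := by exact_mod_cast hn0.ne'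
  split_ifs
  · push_cast
    field_simp
  · simp only [mul_zero, Nat.cast_zero, zero_div]

end Pool.Agent.H703.TR.T2
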